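import Pool.Agent.Helper988.AC.Deriv

set_option autoImplicit false
open Filter Topology

namespace Pool.Agent.Results.MP_e0f0cb_an.Continuous

section Defs

variable {A : Type} [NonUnitalNormedRing A] [NormedSpace ℂ A]

/-- `K` is a closed two-sided ideal. -/
def IsClosedIdeal (K : Submodule ℂ A) : Prop :=
  IsClosed (K : Set A) ∧ (∀ a x : A, x ∈ K → a * x ∈ K) ∧ (∀ a x : A, x ∈ K → x * a ∈ K)

/-- The products of `n + 1` elements of `J`. -/
def Products (J : Submodule ℂ A) : ℕ → Set A
  | 0 => J
  | n + 1 => {x | ∃ a ∈ J, ∃ c ∈ Products J n, x = a * c}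

variable (A)

/-- The closed powers of the closed ideals of finite codimension have zero intersection: for every
`y ≠ 0` there are a closed ideal `J` of finite codimension, a number `n` and a closed ideal `K`
that contains all products of `n + 1` elements of `J` but not `y`. -/
def PowersSeparate : Prop :=
  ∀ y : A, y ≠ 0 → ∃ (J K : Submodule ℂ A) (n : ℕ), IsClosedIdeal J ∧
    FiniteDimensional ℂ (A ⧸ J) ∧ IsClosedIdeal K ∧ (∀ x ∈ Products J n, x ∈ K) ∧ y ∉ K

/-- `A` is semiprime: `a A a = 0` only for `a = 0`. -/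
def Semiprime : Prop := ∀ a : A, (∀ x : A, a * x * a = 0) → a = 0

variable {A} in
/-- The linear map `δ` is a derivation. -/
def IsDerivation (δ : A →ₗ[ℂ] A) : Prop := ∀ x y : A, δ (x * y) = δ x * y + x * δ y

end Defs

lemma prod_eq {A : Type} [NonUnitalNormedRing A] [NormedSpace ℂ A] [IsScalarTower ℂ A A]
    [SMulCommClass ℂ A A] (J : Submodule ℂ A) (n : ℕ) :
    Helper988.AC.PowProd J n = Products J n := by
  induction n with
  | zero => rfl
  | succ n ih =>
    show {x | ∃ a ∈ J, ∃ c ∈ Helper988.AC.PowProd J n, x = a * c} =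
      {x | ∃ a ∈ J, ∃ c ∈ Products J n, x = a * c}
    rw [ih]

/-- Every derivation on a semiprime complex Banach algebra in which the closed powers of the closed
ideals of finite codimension have zero intersection is continuous; in particular the separating
space of each of its powers is zero. -/
theorem result :
    ∀ (A : Type) [NonUnitalNormedRing A] [NormedSpace ℂ A] [IsScalarTower ℂ A A]
      [SMulCommClass ℂ A A] [CompleteSpace A], Semiprime A → PowersSeparate A →
      ∀ δ : A →ₗ[ℂ] A, IsDerivation δ → Continuous δ ∧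
        ∀ (n : ℕ) (x : ℕ → A) (y : A), Tendsto x atTop (𝓝 0) →
          Tendsto (fun k => δ^[n + 1] (x k)) atTop (𝓝 y) → y = 0 := by
  intro A _ _ _ _ _ hsp h δ hδ
  have hc : Continuous δ := by
    refine Helper988.AC.deriv_cont hsp ?_ δ hδ
    intro y hy
    obtain ⟨J, K, n, hJ, hfin, hK, hJK, hyK⟩ := h y hy
    exact ⟨K, J, n, hK.1, hK.2.1, hK.2.2, hJ.1, hfin, hJ.2.1, hJ.2.2,
      fun x hx => hJK x (by rwa [prod_eq] at hx), hyK⟩
  refine ⟨hc, fun n x y hx hy => ?_⟩
  have hn : Continuous (δ^[n + 1]) := hc.iterate _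
  have h0 : δ^[n + 1] 0 = 0 := by
    generalize n + 1 = m
    induction m with
    | zero => rfl
    | succ m ih => rw [Function.iterate_succ_apply', ih, map_zero]
  have h1 : Tendsto (fun k => δ^[n + 1] (x k)) atTop (𝓝 (δ^[n + 1] 0)) := (hn.tendsto 0).comp hx
  rw [h0] at h1
  exact tendsto_nhds_unique hy h1

end Pool.Agent.Results.MP_e0f0cb_an.Continuous
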