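import Pool.Agent.Helper988.AC.Deriv
import Pool.Agent.Helper988.AC.Sinclair

set_option autoImplicit false
open Filter Topology

namespace Pool.Agent.Results.MP_e0f0cb_an.Primitive

section Defs

variable {A : Type} [NonUnitalNormedRing A] [NormedSpace ℂ A]

/-- `K` is a closed two-sided ideal. -/
def IsClosedIdeal (K : Submodule ℂ A) : Prop :=
  IsClosed (K : Set A) ∧ (∀ a x : A, x ∈ K → a * x ∈ K) ∧ (∀ a x : A, x ∈ K → x * a ∈ K)

/-- The products of `n + 1` elements of `J`. -/
def Products (J : Submodule ℂ A) : ℕ → Set A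
  | 0 => J
  | n + 1 => {x | ∃ a ∈ J, ∃ c ∈ Products J n, x = a * c}

variable (A)

/-- The closed powers of the closed ideals of finite codimension have zero intersection: for every
`y ≠ 0` there are a closed ideal `J` of finite codimension, a number `n` and a closed ideal `K`
that contains all products of `n + 1` elements of `J` but not `y`. -/
def PowersSeparate : Prop :=
  ∀ y : A, y ≠ 0 → ∃ (J K : Submodule ℂ A) (n : ℕ), IsClosedIdeal J ∧
    FiniteDimensional ℂ (A ⧸ J) ∧ IsClosedIdeal K ∧ (∀ x ∈ Products J n, x ∈ K) ∧ y ∉ K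

/-- `A` is semiprime: `a A a = 0` only for `a = 0`. -/
def Semiprime : Prop := ∀ a : A, (∀ x : A, a * x * a = 0) → a = 0

end Defs

lemma prod_eq {A : Type} [NonUnitalNormedRing A] [NormedSpace ℂ A] [IsScalarTower ℂ A A]
    [SMulCommClass ℂ A A] (J : Submodule ℂ A) (n : ℕ) :
    Helper988.AC.PowProd J n = Products J n := by
  induction n with
  | zero => rfl
  | succ n ih =>
    show {x | ∃ a ∈ J, ∃ c ∈ Helper988.AC.PowProd J n, x = a * c} =
      {x | ∃ a ∈ J, ∃ c ∈ Products J n, x = a * c}
    rw [ih]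

/-- On a semiprime complex Banach algebra in which the closed powers of the closed ideals of finite
codimension have zero intersection, every derivation is continuous and leaves every primitive ideal
`P = {x | x A ⊆ L}`, `L` a maximal modular left ideal, invariant. -/
theorem result :
    ∀ (A : Type) [NonUnitalNormedRing A] [NormedSpace ℂ A] [IsScalarTower ℂ A A]
      [SMulCommClass ℂ A A] [CompleteSpace A], Semiprime A → PowersSeparate A →
      ∀ D : A →ₗ[ℂ] A, (∀ a b : A, D (a * b) = D a * b + a * D b) →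
        Continuous D ∧
        ∀ L : Submodule ℂ A,
          (∀ a x : A, x ∈ L → a * x ∈ L) →
          (∃ u : A, ∀ a : A, a - a * u ∈ L) →
          L ≠ ⊤ →
          (∀ L' : Submodule ℂ A, (∀ a x : A, x ∈ L' → a * x ∈ L') → L ≤ L' → L' = L ∨ L' = ⊤) →
          ∀ x : A, (∀ a : A, x * a ∈ L) → ∀ a : A, D x * a ∈ L := by
  intro A _ _ _ _ _ hsp h D hD
  have hc : Continuous D := by
    refine Helper988.AC.deriv_cont hsp ?_ D hD
    intro y hy
    obtain ⟨J, K, n, hJ, hfin, hK, hJK, hyK⟩ := h y hy
    exact ⟨K, J, n, hK.1, hK.2.1, hK.2.2, hJ.1, hfin, hJ.2.1, hJ.2.2,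
      fun x hx => hJK x (by rwa [prod_eq] at hx), hyK⟩
  exact ⟨hc, fun L hL hu hne hmax x hx a =>
    Helper988.AC.sinclair D hD hc L hL hu hne hmax x hx a⟩

end Pool.Agent.Results.MP_e0f0cb_an.Primitive
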